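import Pool.Agent.H87.SN.Targets

/-!
# Row NKD of snk_modules: from stationary harmonic maps to the data on the neck
-/

set_option autoImplicit false

namespace Pool.Agent.H99.SN

open Pool.Agent.H87.SN
open MeasureTheory Metric Set Filter Topology
open scoped ContDiff RealInnerProductSpace

theorem nkd_zp_cont (d : ℕ) : Continuous (zp (d := d)) := by
  unfold zp
  refine (PiLp.continuous_toLp 2 _).comp (continuous_pi fun i => ?_)
  exact (EuclideanSpace.proj (𝕜 := ℝ) (i.succ.succ)).continuous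

theorem nkd_rho_cont (d : ℕ) : Continuous (rho (d := d)) := by
  unfold rho
  have h0 : Continuous (fun x : E (d + 2) => x 0) :=
    (EuclideanSpace.proj (𝕜 := ℝ) (0 : Fin (d + 2))).continuous
  have h1 : Continuous (fun x : E (d + 2) => x 1) :=
    (EuclideanSpace.proj (𝕜 := ℝ) (1 : Fin (d + 2))).continuous
  exact Real.continuous_sqrt.comp ((h0.pow 2).add (h1.pow 2))

theorem nkd_neck_open {d : ℕ} (r : E d → ℝ) (hr : Continuous r) : IsOpen (neck r) := by
  have h1 : IsOpen {x : E (d + 2) | r (zp x) < rho x} :=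
    isOpen_lt (hr.comp (nkd_zp_cont d)) (nkd_rho_cont d)
  exact Metric.isOpen_ball.inter h1

theorem pf_NKD (hST1 : T_ST1) (hCL1 : T_CL1) (hCL2 : T_CL2) (hCL3 : T_CL3) (hGEO : T_GEO) :
    T_NKD := by
  intro m N A hN hA
  obtain ⟨CA, hCA0, hCA⟩ := hGEO m N A hN hA
  refine ⟨1 / (4 * (CA + 1)), by positivity, ?_⟩
  intro d r u G hr hr0 hSH hsm hsmall
  have hop : IsOpen (neck r) := nkd_neck_open r hr
  have hsub : neck r ⊆ ball (0 : E (d + 2)) 2 := fun x hx => hx.1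
  have huN : ∀ x ∈ neck r, u x ∈ N :=
    hCL1 (d + 2) m N (neck r) u hN hop hsub hsm.continuousOn hSH.mem
  have hae := hCL2 (d + 2) m (neck r) u G hSH.w12 hop hsub hsm
  have hlap := hCL3 (d + 2) m N A (neck r) u G hN hA.continuousOn hSH hop hsub hsm
  obtain ⟨horth, hlb, hab⟩ := hCA d (neck r) u hop hsm huN hlap
  -- the smallness
  have hkey : ∀ x ∈ neck r, CA ^ 2 * (nsq (fderiv ℝ u x) * rho x ^ 2) ≤ 1 / 8 := by
    intro x hx
    have hn0 : 0 ≤ nsq (fderiv ℝ u x) := by unfold nsq; positivity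
    have hrho0 : 0 ≤ rho x := by unfold rho; positivity
    have h1 := hsmall x hx
    have h2 : (rho x * Real.sqrt (nsq (fderiv ℝ u x))) ^ 2 ≤ (1 / (4 * (CA + 1))) ^ 2 :=
      pow_le_pow_left₀ (by positivity) h1 2
    rw [mul_pow, Real.sq_sqrt hn0] at h2
    have h3 : CA ^ 2 * (1 / (4 * (CA + 1))) ^ 2 ≤ 1 / 8 := by
      rw [div_pow, one_pow, mul_one_div, div_le_iff₀ (by positivity)]
      nlinarith
    calc CA ^ 2 * (nsq (fderiv ℝ u x) * rho x ^ 2)
        = CA ^ 2 * (rho x ^ 2 * nsq (fderiv ℝ u x)) := by ring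
      _ ≤ CA ^ 2 * (1 / (4 * (CA + 1))) ^ 2 := by gcongr
      _ ≤ 1 / 8 := h3
  refine ⟨hSH.w12.memLp_deriv, ?_, hsm, hae, horth, ?_, ?_⟩
  · exact hST1 (d + 2) m G hSH.w12.memLp_deriv (fun X hX => hSH.stationary X hX)
  · intro x hx
    have hn0 : 0 ≤ nsq (fderiv ℝ u x) := by unfold nsq; positivity
    calc ‖lap u x‖ ^ 2 * rho x ^ 2
        ≤ (CA * nsq (fderiv ℝ u x)) ^ 2 * rho x ^ 2 := by
          gcongr
          exact hlb x hx
      _ = (CA ^ 2 * (nsq (fderiv ℝ u x) * rho x ^ 2)) * nsq (fderiv ℝ u x) := by ring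
      _ ≤ 1 / 8 * nsq (fderiv ℝ u x) := by
          gcongr
          exact hkey x hx
  · intro x hx
    calc |⟪uthth u x, lap u x⟫| * rho x ^ 2
        ≤ (CA ^ 2 * ‖uth u x‖ ^ 2 * nsq (fderiv ℝ u x)) * rho x ^ 2 := by
          gcongr
          exact hab x hx
      _ = (CA ^ 2 * (nsq (fderiv ℝ u x) * rho x ^ 2)) * ‖uth u x‖ ^ 2 := by ring
      _ ≤ 1 / 8 * ‖uth u x‖ ^ 2 := by
          gcongr
          exact hkey x hx

end Pool.Agent.H99.SN
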